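import Pool.Agent.H8.Alt.Six
import Pool.Agent.H8.Alt.C2.Final
import Pool.Agent.H76.EB.Fin
import Pool.Agent.H3.Alt.C3.Fin

/-!
# Free alternative algebras are not separated

Over every nonzero commutative ring `Φ` the free alternative algebra on a set with at least six
elements (in particular on a countably infinite set) has a nonzero element which lies both in the
associator ideal and in an ideal contained in the nucleus.
-/

namespace Pool.Agent.Results.MP_c4e11e_al.NotSeparated

open H8Alt

universe u v

theorem main {Φ : Type u} [CommRing Φ] [Nontrivial Φ] {X : Type v} (ι : Fin 6 → X)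
    (hι : Function.Injective ι) : ¬ IsSeparated Φ (FreeAlt Φ X) := by
  refine H8Alt.Six.final ι hι ?_ ?_ ?_
  · intro A _ _ h z a b c d e
    exact H8Alt.C2.bt_comm_two (fun x => by rw [← two_zsmul]; exact h x) z a b c d e
  · intro A _ _ h2 h3 z a b c d e
    exact Pool.Agent.H76.EB.bt_comm h2 h3 z a b c d e
  · intro A _ _ h z a b c d y w
    exact Pool.Agent.H3.Alt.C3.nu_as h z a b c d y w

/-- The free alternative `Φ`-algebra on a set with at least six elements is not separated, for
every nonzero commutative ring `Φ`; this covers every infinite set `X`. -/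
theorem result :
    (∀ (Φ : Type u) [CommRing Φ] [Nontrivial Φ] (X : Type v),
      (∃ ι : Fin 6 → X, Function.Injective ι) → ¬ IsSeparated Φ (FreeAlt Φ X)) ∧
    (∀ (Φ : Type u) [CommRing Φ] [Nontrivial Φ] (X : Type v) [Infinite X],
      ¬ IsSeparated Φ (FreeAlt Φ X)) := by
  refine ⟨fun Φ _ _ X h => ?_, fun Φ _ _ X _ => ?_⟩
  · obtain ⟨ι, hι⟩ := h
    exact main ι hι
  · exact main (fun i => Infinite.natEmbedding X i)
      (fun i j h => Fin.ext ((Infinite.natEmbedding X).injective h))

end Pool.Agent.Results.MP_c4e11e_al.NotSeparated
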